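import Pool.Agent.Q289.OC.Final
import Pool.Agent.Q154.OC.Fin

/-!
# The interchange process mixes in time `O(t_mix log n)` on every graph

For a continuous time Markov chain on a finite state space with jump rates `r x y`, the kernel at
time `t` is the matrix exponential `exp (t Q)` of the generator `Q`, and the mixing time is
`inf {t ≥ 0 : max_x ‖P_t(x, ·) - uniform‖_TV ≤ 1/4}` (in `[0, ∞]`, with `inf ∅ = ∞`).
-/

set_option autoImplicit false

namespace Pool.Agent.Results.MP_e2dfad_pr.InterchangeMixing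

open Equiv Finset

noncomputable section

/-- generator of the continuous time chain with jump rates `r x y` (`x ≠ y`) -/
def generator {Ω : Type} [Fintype Ω] [DecidableEq Ω] (r : Ω → Ω → ℝ) : Matrix Ω Ω ℝ :=
  Matrix.of fun x y => if x = y then -∑ z ∈ univ.erase x, r x z else r x y

/-- transition kernel `P_t = exp (t Q)` -/
def kernel {Ω : Type} [Fintype Ω] [DecidableEq Ω] (r : Ω → Ω → ℝ) (t : ℝ) : Matrix Ω Ω ℝ :=
  NormedSpace.exp (t • generator r)

/-- total variation distance of `P_t(x, ·)` from the uniform distribution -/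
def tv {Ω : Type} [Fintype Ω] [DecidableEq Ω] (r : Ω → Ω → ℝ) (t : ℝ) (x : Ω) : ℝ :=
  (1 / 2 : ℝ) * ∑ y, |kernel r t x y - 1 / (Fintype.card Ω : ℝ)|

/-- mixing time `inf {t ≥ 0 : max_x tv ≤ 1/4}` -/
def tmix {Ω : Type} [Fintype Ω] [DecidableEq Ω] (r : Ω → Ω → ℝ) : ENNReal :=
  sInf {s | ∃ t : ℝ, 0 ≤ t ∧ (∀ x, tv r t x ≤ 1 / 4) ∧ s = ENNReal.ofReal t}

variable {V : Type} [Fintype V] [DecidableEq V]

/-- rate `1` along every edge of the graph, `0` otherwise -/
def adjRate (G : SimpleGraph V) [DecidableRel G.Adj] (x y : V) : ℝ := if G.Adj x y then 1 else 0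

/-- random walk with (symmetric) rates `c`: jump rate `c x y` from `x` to `y` -/
def rwRate (c : V → V → ℝ) (x y : V) : ℝ := c x y

/-- interchange process with symmetric rates `c`: states are the bijections `σ` from `V` onto
`Fin |V|` (label of the particle at each vertex); for every unordered pair `{u, v}`, at rate `c u v`,
the particles at `u` and `v` are exchanged (`σ` becomes `σ ∘ (u v)`). In the sum every unordered pair
occurs twice. -/
def ipRate (c : V → V → ℝ) (σ τ : V ≃ Fin (Fintype.card V)) : ℝ :=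
  (1 / 2 : ℝ) * ∑ u, ∑ v, if τ = (swap u v).trans σ then c u v else 0

end

/-- **Main theorem.** There is an absolute constant `C` such that
(1) for every finite connected graph on `n ≥ 2` vertices the mixing time of the interchange process
is at most `C log n` times the mixing time of the random walk (which is finite);
(2) the same for arbitrary symmetric rates `c u v ≥ 0` in place of the edge rates;
(3) if `t ≥ 0` is such that the random walk with rates `c` is within `1/4` of equilibrium in total
variation at time `t` (from every vertex), then the Dirichlet form of the interchange process is at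
least `1 / (C t)` times the one of the random transposition walk with rate `1 / n` for every pair. -/
theorem result : ∃ C : ℝ, 0 < C ∧
    (∀ (V : Type) [Fintype V] [DecidableEq V] (G : SimpleGraph V) [DecidableRel G.Adj],
      G.Connected → 2 ≤ Fintype.card V →
      tmix (rwRate (adjRate G)) ≠ ⊤ ∧
      tmix (ipRate (adjRate G)) ≤
        ENNReal.ofReal (C * Real.log (Fintype.card V)) * tmix (rwRate (adjRate G))) ∧
    (∀ (V : Type) [Fintype V] [DecidableEq V] (c : V → V → ℝ),
      (∀ x y, 0 ≤ c x y) → (∀ x y, c x y = c y x) → 2 ≤ Fintype.card V →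
      tmix (ipRate c) ≤ ENNReal.ofReal (C * Real.log (Fintype.card V)) * tmix (rwRate c)) ∧
    (∀ (V : Type) [Fintype V] [DecidableEq V] (c : V → V → ℝ),
      (∀ x y, 0 ≤ c x y) → (∀ x y, c x y = c y x) → 2 ≤ Fintype.card V →
      ∀ t : ℝ, 0 ≤ t → (∀ x, tv (rwRate c) t x ≤ 1 / 4) →
      ∀ f : (V ≃ Fin (Fintype.card V)) → ℝ,
        ∑ u, ∑ v, (1 / (Fintype.card V : ℝ)) * ∑ σ, (f ((swap u v).trans σ) - f σ) ^ 2 ≤
          C * t * ∑ u, ∑ v, c u v * ∑ σ, (f ((swap u v).trans σ) - f σ) ^ 2) := by
  obtain ⟨C₁, hC₁, h1⟩ := Q289.OC.Ch.tmix_le Q289.OC.mixStm'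
  obtain ⟨C₂, hC₂, h2⟩ := Q289.OC.Ch.dir_le Q289.OC.compStm'
  have key : ∀ (V : Type) [Fintype V] [DecidableEq V] (c : V → V → ℝ),
      (∀ x y, 0 ≤ c x y) → (∀ x y, c x y = c y x) → 2 ≤ Fintype.card V →
      tmix (ipRate c) ≤ ENNReal.ofReal ((C₁ + C₂) * Real.log (Fintype.card V)) *
        tmix (rwRate c) := by
    intro V _ _ c hc hcs hV
    refine (h1 V c hc hcs hV).trans ?_
    have hlog : 0 ≤ Real.log (Fintype.card V) := Real.log_natCast_nonneg _
    exact mul_le_mul_left (ENNReal.ofReal_le_ofReal (mul_le_mul_of_nonneg_right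
      (by linarith) hlog)) _
  refine ⟨C₁ + C₂, by positivity, ?_, key, ?_⟩
  · intro V _ _ G _ hG hV
    refine ⟨?_, key V (adjRate G) (fun x y => ?_) (fun x y => ?_) hV⟩
    · obtain ⟨t, ht, hmix⟩ := Q154.OC.t_FIN V G hG
      refine ne_top_of_le_ne_top ENNReal.ofReal_ne_top (sInf_le ⟨t, ht, hmix, rfl⟩)
    · unfold adjRate; split_ifs <;> norm_num
    · unfold adjRate; simp only [G.adj_comm]
  · intro V _ _ c hc hcs hV t ht hmix f
    have h3 := h2 V c hc hcs hV t ht hmix f
    have hn : (0 : ℝ) < ((Fintype.card V : ℕ) : ℝ) := by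
      have : 0 < Fintype.card V := by omega
      exact_mod_cast this
    set X := ∑ u, ∑ v, ∑ σ, (f ((swap u v).trans σ) - f σ) ^ 2 with hX
    set Y := ∑ u, ∑ v, c u v * ∑ σ, (f ((swap u v).trans σ) - f σ) ^ 2 with hY
    have hY0 : 0 ≤ Y := Finset.sum_nonneg fun u _ => Finset.sum_nonneg fun v _ =>
      mul_nonneg (hc u v) (Finset.sum_nonneg fun σ _ => sq_nonneg _)
    have e : ∑ u, ∑ v, (1 / (Fintype.card V : ℝ)) * ∑ σ, (f ((swap u v).trans σ) - f σ) ^ 2 =
        (1 / (Fintype.card V : ℝ)) * X := by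
      rw [hX, Finset.mul_sum]
      exact Finset.sum_congr rfl fun u _ => by rw [Finset.mul_sum]
    rw [e]
    calc (1 / (Fintype.card V : ℝ)) * X
        ≤ (1 / (Fintype.card V : ℝ)) * (C₂ * t * Fintype.card V * Y) :=
          mul_le_mul_of_nonneg_left h3 (by positivity)
      _ = C₂ * t * Y := by field_simp
      _ ≤ (C₁ + C₂) * t * Y := by
          refine mul_le_mul_of_nonneg_right ?_ hY0
          exact mul_le_mul_of_nonneg_right (by linarith) ht

end Pool.Agent.Results.MP_e2dfad_pr.InterchangeMixing
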